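import Mathlib

set_option autoImplicit false

/-!
# Monogenic polynomials and the numbers `ζ - ζ⁻¹`
-/

namespace Pool.Agent.X17.Monogenic

open Polynomial

/-- `f ∈ ℤ[X]` (meant to be monic and irreducible) is monogenic: for every root `θ` of `f` in `ℂ`,
the ring of integers of `ℚ(θ)` is `ℤ[θ]`. -/
def IsMonogenic (f : ℤ[X]) : Prop :=
  ∀ θ : ℂ, aeval θ f = 0 →
    {y : ℂ | y ∈ IntermediateField.adjoin ℚ ({θ} : Set ℂ) ∧ IsIntegral ℤ y} =
      (Algebra.adjoin ℤ ({θ} : Set ℂ) : Set ℂ)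

/-- An odd integer divided by two is not integral. -/
theorem not_integral_half (m : ℕ) (hm : Odd m) (y : ℂ) (hy : IsIntegral ℤ y) (h : (m : ℂ) = 2 * y) :
    False := by
  have h1 : y = ((m / 2 : ℚ) : ℂ) := by
    push_cast
    rw [h]; ring
  have h2 : IsIntegral ℤ (m / 2 : ℚ) := by
    rw [h1] at hy
    have : ((m / 2 : ℚ) : ℂ) = algebraMap ℚ ℂ (m / 2 : ℚ) := rfl
    rw [this] at hy
    exact (isIntegral_algebraMap_iff (algebraMap ℚ ℂ).injective).1 hy
  obtain ⟨z, hz⟩ := IsIntegrallyClosed.isIntegral_iff.1 h2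
  have h3 : (z : ℚ) = m / 2 := by simpa using hz
  have h4 : (2 * z : ℚ) = (m : ℚ) := by rw [h3]; ring
  have h5 : 2 * z = (m : ℤ) := by exact_mod_cast h4
  obtain ⟨k, hk⟩ := hm
  omega

/-- For `w ≠ 1` with `w ^ m = 1` the difference `1 - w` divides `m` among the algebraic
integers. -/
theorem one_sub_dvd (m : ℕ) (hm : 0 < m) (w : ℂ) (hw : w ^ m = 1) (h1 : w ≠ 1) :
    ∃ y : ℂ, IsIntegral ℤ y ∧ (m : ℂ) = (1 - w) * y := by
  have hint : IsIntegral ℤ w := IsIntegral.of_pow hm (by rw [hw]; exact isIntegral_one)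
  refine ⟨∑ i ∈ Finset.range m, ∑ j ∈ Finset.range i, w ^ j, ?_, ?_⟩
  · exact IsIntegral.sum _ fun i _ => IsIntegral.sum _ fun j _ => hint.pow j
  · have h2 : ∑ i ∈ Finset.range m, w ^ i = 0 := by
      have := mul_geom_sum w m
      rw [hw, sub_self] at this
      exact (mul_eq_zero.1 this).resolve_left (sub_ne_zero.2 h1)
    rw [Finset.mul_sum]
    have h3 : ∀ i ∈ Finset.range m, (1 - w) * ∑ j ∈ Finset.range i, w ^ j = 1 - w ^ i := by
      intro i _
      have := mul_geom_sum w i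
      linear_combination -this
    rw [Finset.sum_congr rfl h3, Finset.sum_sub_distrib, h2]
    simp

/-- If `h` has integer coefficients then `h(θ) - h(-θ)` is twice an integral element. -/
theorem sub_neg_dvd (θ : ℂ) (hθ : IsIntegral ℤ θ) (h : ℤ[X]) :
    ∃ y : ℂ, IsIntegral ℤ y ∧ aeval θ h - aeval (-θ) h = 2 * y := by
  induction h using Polynomial.induction_on' with
  | add p q hp hq =>
    obtain ⟨y, hy, h1⟩ := hp
    obtain ⟨z, hz, h2⟩ := hq
    refine ⟨y + z, hy.add hz, ?_⟩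
    simp only [map_add]
    linear_combination h1 + h2
  | monomial n a =>
    rcases Nat.even_or_odd n with hn | hn
    · refine ⟨0, isIntegral_zero, ?_⟩
      simp [aeval_monomial, hn.neg_pow]
    · refine ⟨(a : ℂ) * θ ^ n, ?_, ?_⟩
      · exact (isIntegral_algebraMap (R := ℤ) (A := ℂ) (x := a)).mul (hθ.pow n)
      · simp [aeval_monomial, hn.neg_pow]
        ring

/-- The Lucas polynomials. -/
noncomputable def lucas : ℕ → ℤ[X]
  | 0 => 2
  | 1 => X
  | (n + 2) => X * lucas (n + 1) + lucas n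

/-- The Fibonacci polynomials. -/
noncomputable def fibo : ℕ → ℤ[X]
  | 0 => 0
  | 1 => 1
  | (n + 2) => X * fibo (n + 1) + fibo n

theorem aeval_lucas (ζ : ℂ) (hζ : ζ ≠ 0) (n : ℕ) :
    aeval (ζ - ζ⁻¹) (lucas n) = ζ ^ n + (-ζ⁻¹) ^ n := by
  induction n using Nat.strong_induction_on with
  | _ n ih =>
    match n with
    | 0 =>
      have : (2 : ℤ[X]) = C 2 := rfl
      simp only [lucas, pow_zero, this, aeval_C]
      norm_num
    | 1 => simp [lucas]; ring
    | (n + 2) =>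
      have e : ζ * ζ⁻¹ = 1 := mul_inv_cancel₀ hζ
      simp only [lucas, map_add, map_mul, aeval_X, ih (n + 1) (by omega), ih n (by omega)]
      linear_combination (-(-ζ⁻¹) ^ n + -ζ ^ n) * e

theorem aeval_fibo (ζ : ℂ) (hζ : ζ ≠ 0) (n : ℕ) :
    aeval (ζ - ζ⁻¹) (fibo n) * (ζ + ζ⁻¹) = ζ ^ n - (-ζ⁻¹) ^ n := by
  induction n using Nat.strong_induction_on with
  | _ n ih =>
    match n with
    | 0 => simp [fibo]
    | 1 => simp [fibo]
    | (n + 2) =>
      have e : ζ * ζ⁻¹ = 1 := mul_inv_cancel₀ hζ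
      have h1 := ih (n + 1) (by omega)
      have h0 := ih n (by omega)
      simp only [fibo, map_add, map_mul, aeval_X]
      linear_combination (ζ - ζ⁻¹) * h1 + h0 + ((-ζ⁻¹) ^ n + -ζ ^ n) * e

/-- Let `ζ ≠ 1` be a root of unity of odd order dividing `m`. Then `ζ` is an integer of `ℚ(ζ - ζ⁻¹)`
but not in `ℤ[ζ - ζ⁻¹]`. -/
theorem not_adjoin (m : ℕ) (hm : Odd m) (ζ : ℂ) (hζ : ζ ^ m = 1) (h1 : ζ ≠ 1) :
    ζ ∈ IntermediateField.adjoin ℚ ({ζ - ζ⁻¹} : Set ℂ) ∧ IsIntegral ℤ ζ ∧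
      ζ ∉ Algebra.adjoin ℤ ({ζ - ζ⁻¹} : Set ℂ) := by
  have hm0 : 0 < m := hm.pos
  have hζ0 : ζ ≠ 0 := by
    rintro rfl
    rw [zero_pow hm0.ne'] at hζ
    exact zero_ne_one hζ
  have hint : IsIntegral ℤ ζ := IsIntegral.of_pow hm0 (by rw [hζ]; exact isIntegral_one)
  have hinv : ζ⁻¹ = ζ ^ (m - 1) := by
    rw [inv_eq_iff_eq_inv, ← one_div, eq_div_iff (pow_ne_zero _ hζ0), ← pow_succ']
    rw [Nat.sub_add_cancel hm0, hζ]
  have hinvint : IsIntegral ℤ ζ⁻¹ := by rw [hinv]; exact hint.pow _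
  set θ := ζ - ζ⁻¹ with hθ
  have hθint : IsIntegral ℤ θ := hint.sub hinvint
  refine ⟨?_, hint, ?_⟩
  · have h2 : aeval θ (lucas (m + 1)) = ζ + ζ⁻¹ := by
      rw [hθ, aeval_lucas ζ hζ0, pow_succ, hζ, pow_succ, neg_pow, hm.neg_one_pow, inv_pow, hζ]
      ring
    have h3 : aeval θ (lucas (m + 1)) ∈ IntermediateField.adjoin ℚ ({θ} : Set ℂ) := by
      have h31 : aeval θ ((lucas (m + 1)).map (algebraMap ℤ ℚ)) = aeval θ (lucas (m + 1)) :=
        aeval_map_algebraMap ℚ θ _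
      rw [← h31]
      exact IntermediateField.algebra_adjoin_le_adjoin ℚ _ (aeval_mem_adjoin_singleton ℚ θ)
    have h4 : ζ = (θ + (ζ + ζ⁻¹)) / 2 := by rw [hθ]; ring
    rw [h4, ← h2]
    refine div_mem (add_mem (IntermediateField.mem_adjoin_simple_self ℚ θ) h3) ?_
    exact ofNat_mem _ 2
  · intro hmem
    rw [Algebra.adjoin_singleton_eq_range_aeval] at hmem
    obtain ⟨h, hh⟩ := hmem
    have hh : aeval θ h = ζ := hh
    have hconj : (starRingEnd ℂ) ζ = ζ⁻¹ := by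
      have hn : ‖ζ‖ = 1 := Complex.norm_eq_one_of_pow_eq_one hζ hm0.ne'
      exact (Complex.inv_eq_conj hn).symm
    have hconj' : (starRingEnd ℂ) θ = -θ := by
      rw [hθ, map_sub, map_inv₀, hconj, inv_inv]; ring
    have h5 : aeval (-θ) h = ζ⁻¹ := by
      rw [← hconj', ← hconj, ← hh]
      have := Polynomial.hom_eval₂ h (algebraMap ℤ ℂ) (starRingEnd ℂ) θ
      rw [aeval_def, aeval_def, this]
      congr 1
      exact Subsingleton.elim _ _
    obtain ⟨y, hy, h6⟩ := sub_neg_dvd θ hθint h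
    rw [hh, h5] at h6
    -- `θ = 2 y`, and `1 - ζ ^ 2 = - ζ θ` divides `m`
    have hw : (ζ ^ 2) ^ m = 1 := by rw [← pow_mul, mul_comm, pow_mul, hζ, one_pow]
    have hw1 : ζ ^ 2 ≠ 1 := by
      intro h7
      obtain ⟨k, hk⟩ := hm
      apply h1
      have : ζ ^ (2 * k + 1) = 1 := by rw [← hk]; exact hζ
      rw [pow_succ, pow_mul, h7, one_pow, one_mul] at this
      exact this
    obtain ⟨z, hz, h8⟩ := one_sub_dvd m hm0 (ζ ^ 2) hw hw1
    refine not_integral_half m hm (-ζ * y * z) ((hint.neg.mul hy).mul hz) ?_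
    have h9 : 1 - ζ ^ 2 = 2 * (-ζ * y) := by
      have e : ζ * ζ⁻¹ = 1 := mul_inv_cancel₀ hζ0
      linear_combination -ζ * h6 - e
    rw [h8, h9]
    ring

/-- The polynomial `X` is monogenic. -/
theorem isMonogenic_X : IsMonogenic X := by
  intro θ hθ
  rw [aeval_X] at hθ
  subst hθ
  ext y
  rw [show ({0} : Set ℂ) = {algebraMap ℚ ℂ 0} by simp]
  constructor
  · rintro ⟨hy, hyi⟩
    rw [IntermediateField.adjoin_simple_eq_bot_iff.2 (IntermediateField.algebraMap_mem _ _)] at hy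
    obtain ⟨q, hq⟩ := IntermediateField.mem_bot.1 hy
    rw [← hq] at hyi
    obtain ⟨z, hz⟩ := IsIntegrallyClosed.isIntegral_iff.1
      ((isIntegral_algebraMap_iff (algebraMap ℚ ℂ).injective).1 hyi)
    rw [← hq, ← hz]
    have : algebraMap ℚ ℂ (algebraMap ℤ ℚ z) = algebraMap ℤ ℂ z := by simp
    rw [this]
    exact Subalgebra.algebraMap_mem _ z
  · intro hy
    have h0 : Algebra.adjoin ℤ ({algebraMap ℚ ℂ 0} : Set ℂ) = ⊥ := by
      refine le_bot_iff.1 (Algebra.adjoin_le ?_)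
      rintro x rfl
      simp only [map_zero]
      exact zero_mem _
    rw [h0, SetLike.mem_coe, Algebra.mem_bot] at hy
    obtain ⟨z, rfl⟩ := hy
    refine ⟨?_, isIntegral_algebraMap⟩
    have : algebraMap ℤ ℂ z = algebraMap ℚ ℂ (z : ℚ) := by simp
    rw [this]
    exact IntermediateField.algebraMap_mem _ _

/-- A monic irreducible divisor of a monic irreducible polynomial equals it. -/
theorem eq_of_dvd {f g : ℤ[X]} (hf : f.Monic) (hfi : Irreducible f) (hg : g.Monic)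
    (hgi : Irreducible g) (h : f ∣ g) : f = g :=
  eq_of_monic_of_associated hf hg (Irreducible.associated_of_dvd hfi hgi h)

end Pool.Agent.X17.Monogenic
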