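import Pool.Agent.X17.Monogenic

set_option autoImplicit false

/-!
# Eisenstein polynomials with discriminant a power of two; the Lucas polynomials of index `2 ^ k`
-/

namespace Pool.Agent.X17.Monogenic

open Polynomial

/-- `p` divides a power of two modulo `f`. -/
def DivTwo (f p : ℤ[X]) : Prop := ∃ (a : ℕ) (g h : ℤ[X]), p * g + f * h = 2 ^ a

theorem DivTwo.mul {f p q : ℤ[X]} (hp : DivTwo f p) (hq : DivTwo f q) : DivTwo f (p * q) := by
  obtain ⟨a, g, h, e⟩ := hp
  obtain ⟨b, g', h', e'⟩ := hq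
  refine ⟨a + b, g * g', p * g * h' + h * (q * g' + f * h'), ?_⟩
  rw [pow_add, ← e, ← e']
  ring

theorem DivTwo.two (f : ℤ[X]) : DivTwo f 2 := ⟨1, 1, 0, by ring⟩

theorem mem_adjoin_aux (K : Type) [Field K] [Algebra ℚ K] [FiniteDimensional ℚ K]
    (B : PowerBasis ℚ K) (f : ℤ[X]) (hBint : IsIntegral ℤ B.gen) (hBmin : minpoly ℤ B.gen = f)
    (hE : f.IsEisensteinAt (Submodule.span ℤ {(2 : ℤ)}))
    (hd : DivTwo f (derivative f)) (y : K) (hy : IsIntegral ℤ y) :
    y ∈ Algebra.adjoin ℤ ({B.gen} : Set K) := by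
  have hBroot : aeval B.gen f = 0 := by rw [← hBmin]; exact minpoly.aeval ℤ B.gen
  -- the discriminant is, up to sign, a power of two
  obtain ⟨a, g, h, e⟩ := hd
  have he : aeval B.gen (derivative f) * aeval B.gen g = 2 ^ a := by
    have := congrArg (aeval B.gen) e
    rw [map_add, map_mul, map_mul, hBroot, zero_mul, add_zero, map_pow] at this
    rw [this]
    congr 1
    have h2 : (2 : ℤ[X]) = C 2 := rfl
    rw [h2, aeval_C]
    simp
  have hn1 : IsIntegral ℤ (Algebra.norm ℚ (aeval B.gen (derivative f))) :=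
    Algebra.isIntegral_norm ℚ (IsIntegral.of_mem_of_fg (Algebra.adjoin ℤ {B.gen})
      (hBint.fg_adjoin_singleton) _ (aeval_mem_adjoin_singleton ℤ B.gen))
  have hn2 : IsIntegral ℤ (Algebra.norm ℚ (aeval B.gen g)) :=
    Algebra.isIntegral_norm ℚ (IsIntegral.of_mem_of_fg (Algebra.adjoin ℤ {B.gen})
      (hBint.fg_adjoin_singleton) _ (aeval_mem_adjoin_singleton ℤ B.gen))
  obtain ⟨z1, hz1⟩ := IsIntegrallyClosed.isIntegral_iff.1 hn1
  obtain ⟨z2, hz2⟩ := IsIntegrallyClosed.isIntegral_iff.1 hn2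
  have hprod : z1 * z2 = 2 ^ (a * Module.finrank ℚ K) := by
    have h1 : Algebra.norm ℚ (aeval B.gen (derivative f)) * Algebra.norm ℚ (aeval B.gen g)
        = (2 : ℚ) ^ (a * Module.finrank ℚ K) := by
      rw [← map_mul, he, map_pow, mul_comm, pow_mul]
      congr 1
      have : (2 : K) = algebraMap ℚ K 2 := by simp
      rw [this, Algebra.norm_algebraMap]
    rw [← hz1, ← hz2] at h1
    have h2 : ((z1 * z2 : ℤ) : ℚ) = ((2 ^ (a * Module.finrank ℚ K) : ℤ) : ℚ) := by
      push_cast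
      simpa using h1
    exact_mod_cast h2
  have hz1' : ∃ b : ℕ, z1 = 2 ^ b ∨ z1 = - 2 ^ b := by
    have h1 : z1.natAbs ∣ 2 ^ (a * Module.finrank ℚ K) := by
      have : z1 ∣ 2 ^ (a * Module.finrank ℚ K) := ⟨z2, hprod.symm⟩
      have := Int.natAbs_dvd_natAbs.2 this
      simpa [Int.natAbs_pow] using this
    obtain ⟨b, _, hb⟩ := (Nat.dvd_prime_pow Nat.prime_two).1 h1
    refine ⟨b, ?_⟩
    rcases Int.natAbs_eq z1 with h | h
    · left; rw [h, hb]; push_cast; rfl
    · right; rw [h, hb]; push_cast; rfl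
  obtain ⟨b, hb⟩ := hz1'
  have hdisc : ∃ ε : ℤ, ε * ε = 1 ∧ Algebra.discr ℚ B.basis = ((ε * 2 ^ b : ℤ) : ℚ) := by
    have h1 := Algebra.discr_powerBasis_eq_norm (K := ℚ) (L := K) B
    have h2 : minpoly ℚ B.gen = f.map (algebraMap ℤ ℚ) := by
      rw [← hBmin]
      exact minpoly.isIntegrallyClosed_eq_field_fractions' ℚ hBint
    rw [h2, derivative_map, aeval_map_algebraMap, ← hz1] at h1
    rcases hb with hb | hb
    · refine ⟨(-1) ^ (Module.finrank ℚ K * (Module.finrank ℚ K - 1) / 2), ?_, ?_⟩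
      · rw [← mul_pow]; norm_num
      · rw [h1, hb]; push_cast; rfl
    · refine ⟨(-1) ^ (Module.finrank ℚ K * (Module.finrank ℚ K - 1) / 2) * (-1), ?_, ?_⟩
      · rw [mul_mul_mul_comm, ← mul_pow]; norm_num
      · rw [h1, hb]
        simp
  obtain ⟨ε, hε, hdisc⟩ := hdisc
  have h1 := Algebra.discr_mul_isIntegral_mem_adjoin (R := ℤ) ℚ hBint hy
  rw [hdisc] at h1
  have h2 : (2 : ℤ) ^ b • y ∈ Algebra.adjoin ℤ ({B.gen} : Set K) := by
    have h3 := Subalgebra.smul_mem _ h1 ε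
    have h4 : ε • (((ε * 2 ^ b : ℤ) : ℚ) • y) = (2 : ℤ) ^ b • y := by
      rw [Int.cast_smul_eq_zsmul, smul_smul, ← mul_assoc, hε, one_mul]
    rwa [h4] at h3
  exact mem_adjoin_of_smul_prime_pow_smul_of_minpoly_isEisensteinAt (K := ℚ) (R := ℤ)
    Int.prime_two hBint hy h2 (by rw [hBmin]; exact hE)

/-- A monic polynomial, Eisenstein at `2`, whose derivative divides a power of two modulo it, is
monogenic. -/
theorem isMonogenic_of_eisenstein (f : ℤ[X]) (hf : f.Monic)
    (hE : f.IsEisensteinAt (Submodule.span ℤ {(2 : ℤ)})) (hirr : Irreducible f)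
    (hd : DivTwo f (derivative f)) : IsMonogenic f := by
  intro θ hθ
  have hint : IsIntegral ℤ θ := ⟨f, hf, by simpa [aeval_def] using hθ⟩
  have hintQ : IsIntegral ℚ θ := hint.tower_top
  have hmin : minpoly ℤ θ = f :=
    eq_of_dvd (minpoly.monic hint) (minpoly.irreducible hint) hf hirr
      (minpoly.isIntegrallyClosed_dvd hint hθ)
  let K := IntermediateField.adjoin ℚ ({θ} : Set ℂ)
  let B := IntermediateField.adjoin.powerBasis hintQ
  have hgen : B.gen = IntermediateField.AdjoinSimple.gen ℚ θ :=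
    IntermediateField.adjoin.powerBasis_gen hintQ
  have hgenval : algebraMap K ℂ B.gen = θ := by
    rw [hgen]; exact IntermediateField.AdjoinSimple.algebraMap_gen ℚ θ
  have hBint : IsIntegral ℤ B.gen := by
    rw [← isIntegral_algebraMap_iff (algebraMap K ℂ).injective, hgenval]
    exact hint
  have hBmin : minpoly ℤ B.gen = f := by
    have := minpoly.algebraMap_eq (A := ℤ) (B := K) (B' := ℂ) (algebraMap K ℂ).injective B.gen
    rw [hgenval] at this
    rw [← this, hmin]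
  have hfin := B.finite
  ext y
  rw [Set.mem_ofPred_eq, SetLike.mem_coe]
  constructor
  · rintro ⟨hy, hyi⟩
    have hyi' : IsIntegral ℤ (⟨y, hy⟩ : K) := by
      rw [← isIntegral_algebraMap_iff (algebraMap K ℂ).injective]
      exact hyi
    have h5 := mem_adjoin_aux K B f hBint hBmin hE hd _ hyi'
    rw [Algebra.adjoin_singleton_eq_range_aeval] at h5 ⊢
    obtain ⟨q, hq⟩ := h5
    refine ⟨q, ?_⟩
    have hq : aeval B.gen q = (⟨y, hy⟩ : K) := hq
    have h6 : aeval (algebraMap K ℂ B.gen) q = algebraMap K ℂ (aeval B.gen q) :=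
      aeval_algebraMap_apply ℂ B.gen q
    rw [hgenval, hq] at h6
    exact h6
  · intro hy
    rw [Algebra.adjoin_singleton_eq_range_aeval] at hy
    obtain ⟨q, rfl⟩ := hy
    refine ⟨?_, ?_⟩
    · have h31 : aeval θ (q.map (algebraMap ℤ ℚ)) = aeval θ q :=
        aeval_map_algebraMap ℚ θ _
      change aeval θ q ∈ _
      rw [← h31]
      exact IntermediateField.algebra_adjoin_le_adjoin ℚ _ (aeval_mem_adjoin_singleton ℚ θ)
    · exact IsIntegral.of_mem_of_fg (Algebra.adjoin ℤ {θ})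
        (hint.fg_adjoin_singleton) _ (aeval_mem_adjoin_singleton ℤ θ)

/-- `V k` is the Lucas polynomial of index `2 ^ (k + 1)`. -/
noncomputable def V : ℕ → ℤ[X]
  | 0 => X ^ 2 + 2
  | (k + 1) => V k ^ 2 - 2

theorem V_shape (k : ℕ) : ∃ Q : ℤ[X], V k = X ^ (2 ^ (k + 1)) + C 2 * Q ∧
    Q.degree < (2 ^ (k + 1) : ℕ) ∧ Q.coeff 0 = 1 := by
  have h2C : (2 : ℤ[X]) = C 2 := rfl
  induction k with
  | zero =>
    refine ⟨1, by simp [V], ?_, by simp⟩
    rw [degree_one]
    norm_num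
  | succ k ih =>
    obtain ⟨Q, h1, h2, h3⟩ := ih
    refine ⟨C 2 * Q * X ^ (2 ^ (k + 1)) + C 2 * (Q * Q) - 1, ?_, ?_, ?_⟩
    · rw [V, h1, h2C]
      have : (C 2 : ℤ[X]) = 2 := rfl
      rw [this]; ring
    · have hN : (2 ^ (k + 1 + 1) : ℕ) = 2 ^ (k + 1) + 2 ^ (k + 1) := by ring
      rw [hN]
      set N := 2 ^ (k + 1) with hNdef
      have hNpos : 0 < N := by positivity
      rw [degree_lt_iff_coeff_zero] at h2 ⊢
      intro m hm
      have hm1 : (1 : ℤ[X]).coeff m = 0 := by rw [coeff_one]; simp; omega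
      have hm2 : (Q * Q).coeff m = 0 := by
        rw [coeff_mul]
        refine Finset.sum_eq_zero ?_
        intro x hx
        have hx := Finset.HasAntidiagonal.mem_antidiagonal.1 hx
        by_cases h : N ≤ x.1
        · rw [h2 _ h, zero_mul]
        · rw [h2 x.2 (by omega), mul_zero]
      rw [coeff_sub, coeff_add, coeff_C_mul, hm1, hm2, mul_assoc, coeff_C_mul]
      rw [coeff_mul_X_pow', if_pos (by omega), h2 _ (by omega)]
      norm_num
    · have e1 : ¬ (2 : ℕ) ^ (k + 1) ≤ 0 := Nat.not_le.2 (by positivity)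
      rw [coeff_sub, coeff_add, coeff_C_mul, mul_assoc, coeff_C_mul, coeff_mul_X_pow',
        if_neg e1, mul_coeff_zero, h3, coeff_one_zero]
      norm_num

theorem V_monic (k : ℕ) : (V k).Monic := by
  obtain ⟨Q, h1, h2, h3⟩ := V_shape k
  rw [h1]
  refine monic_X_pow_add ?_
  rw [degree_C_mul (by norm_num)]
  exact h2

theorem V_natDegree (k : ℕ) : (V k).natDegree = 2 ^ (k + 1) := by
  obtain ⟨Q, h1, h2, h3⟩ := V_shape k
  rw [h1]
  refine natDegree_eq_of_degree_eq_some ?_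
  rw [degree_add_eq_left_of_degree_lt, degree_X_pow]
  rw [degree_X_pow, degree_C_mul (by norm_num)]
  exact h2

theorem V_eisenstein (k : ℕ) : (V k).IsEisensteinAt (Submodule.span ℤ {(2 : ℤ)}) := by
  obtain ⟨Q, h1, h2, h3⟩ := V_shape k
  have hnd := V_natDegree k
  refine ⟨?_, ?_, ?_⟩
  · rw [(V_monic k).leadingCoeff]
    intro h
    have := (Ideal.mem_span_singleton (α := ℤ)).1 h
    omega
  · intro n hn
    rw [hnd] at hn
    rw [h1, coeff_add, coeff_X_pow, if_neg (by omega), coeff_C_mul, zero_add]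
    exact (Ideal.mem_span_singleton (α := ℤ)).2 (dvd_mul_right _ _)
  · rw [h1, coeff_add, coeff_X_pow, if_neg (by positivity), coeff_C_mul, zero_add, h3]
    intro h
    have h' : (2 * 1 : ℤ) ∈ (Ideal.span {(2 : ℤ)}) ^ 2 := h
    rw [Ideal.span_singleton_pow] at h'
    have := (Ideal.mem_span_singleton (α := ℤ)).1 h'
    omega

theorem V_irreducible (k : ℕ) : Irreducible (V k) := by
  refine (V_eisenstein k).irreducible ?_ (V_monic k).isPrimitive ?_
  · exact (Ideal.span_singleton_prime (by norm_num)).2 Int.prime_two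
  · rw [V_natDegree]; positivity

theorem V_mod (i j : ℕ) : (∃ w, V (i + j + 1) = V i * w + 2) ∨ (∃ w, V (i + j + 1) = V i * w - 2) := by
  induction j with
  | zero => right; exact ⟨V i, by rw [add_zero, V]; ring⟩
  | succ j ih =>
    left
    rcases ih with ⟨w, hw⟩ | ⟨w, hw⟩
    · refine ⟨V i * w ^ 2 + 4 * w, ?_⟩
      have : V (i + (j + 1) + 1) = V (i + j + 1) ^ 2 - 2 := rfl
      rw [this, hw]; ring
    · refine ⟨V i * w ^ 2 - 4 * w, ?_⟩
      have : V (i + (j + 1) + 1) = V (i + j + 1) ^ 2 - 2 := rfl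
      rw [this, hw]; ring

theorem V_mod_X (k : ℕ) : ∃ w, V k = X * w + 2 := by
  induction k with
  | zero => exact ⟨X, by rw [V]; ring⟩
  | succ k ih =>
    obtain ⟨w, hw⟩ := ih
    refine ⟨X * w ^ 2 + 4 * w, ?_⟩
    rw [V, hw]; ring

theorem divTwo_X (k : ℕ) : DivTwo (V k) X := by
  obtain ⟨w, hw⟩ := V_mod_X k
  exact ⟨1, -w, 1, by rw [hw]; ring⟩

theorem divTwo_V (k i : ℕ) (h : i < k) : DivTwo (V k) (V i) := by
  obtain ⟨j, rfl⟩ := Nat.exists_eq_add_of_lt h
  rcases V_mod i j with ⟨w, hw⟩ | ⟨w, hw⟩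
  · exact ⟨1, -w, 1, by rw [hw]; ring⟩
  · exact ⟨1, w, -1, by rw [hw]; ring⟩

theorem divTwo_deriv (k j : ℕ) (h : j ≤ k) : DivTwo (V k) (derivative (V j)) := by
  induction j with
  | zero =>
    have : derivative (V 0) = 2 * X := by
      have h2C : (2 : ℤ[X]) = C 2 := rfl
      rw [V, h2C]; simp
    rw [this]
    exact (DivTwo.two _).mul (divTwo_X k)
  | succ j ih =>
    have : derivative (V (j + 1)) = 2 * V j * derivative (V j) := by
      have h2C : (2 : ℤ[X]) = C 2 := rfl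
      rw [V, derivative_sub, h2C, derivative_C, sub_zero, derivative_pow]
      norm_num
    rw [this]
    exact ((DivTwo.two _).mul (divTwo_V k j (by omega))).mul (ih (by omega))

theorem V_monogenic (k : ℕ) : IsMonogenic (V k) :=
  isMonogenic_of_eisenstein (V k) (V_monic k) (V_eisenstein k) (V_irreducible k)
    (divTwo_deriv k k le_rfl)

/-- Every complex number is of the form `ζ - ζ⁻¹`. -/
theorem exists_zeta (x : ℂ) : ∃ ζ : ℂ, ζ ≠ 0 ∧ ζ - ζ⁻¹ = x := by
  obtain ⟨s, hs⟩ := IsAlgClosed.exists_pow_nat_eq (x ^ 2 + 4) (n := 2) (by norm_num)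
  by_cases h : x + s = 0
  · exfalso
    have : s = -x := by linear_combination h
    rw [this] at hs
    have : (4 : ℂ) = 0 := by linear_combination -hs
    norm_num at this
  · refine ⟨(x + s) / 2, div_ne_zero h (by norm_num), ?_⟩
    field_simp
    linear_combination hs

theorem eq_of_aeval {p q : ℤ[X]} (h : ∀ x : ℂ, aeval x p = aeval x q) : p = q := by
  have h1 : p.map (algebraMap ℤ ℂ) = q.map (algebraMap ℤ ℂ) := by
    refine Polynomial.funext fun x => ?_
    rw [eval_map_algebraMap, eval_map_algebraMap]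
    exact h x
  exact map_injective (algebraMap ℤ ℂ) (RingHom.injective_int _) h1

theorem lucas_two_pow (k : ℕ) : lucas (2 ^ (k + 1)) = V k := by
  induction k with
  | zero =>
    have : lucas (2 ^ (0 + 1)) = X * lucas 1 + lucas 0 := rfl
    rw [this, lucas, lucas, V]; ring
  | succ k ih =>
    rw [V, ← ih]
    refine eq_of_aeval fun x => ?_
    obtain ⟨ζ, hζ, rfl⟩ := exists_zeta x
    have h2C : (2 : ℤ[X]) = C 2 := rfl
    rw [map_sub, map_pow, aeval_lucas ζ hζ, aeval_lucas ζ hζ, h2C, aeval_C]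
    have hev : Even (2 ^ (k + 1)) := by rw [Nat.even_pow]; exact ⟨even_two, by omega⟩
    have hev' : Even (2 ^ (k + 1 + 1)) := by rw [Nat.even_pow]; exact ⟨even_two, by omega⟩
    rw [hev.neg_pow, hev'.neg_pow, pow_succ (2 : ℕ) (k + 1), pow_mul, pow_mul]
    have e : ζ ^ (2 ^ (k + 1)) * ζ⁻¹ ^ (2 ^ (k + 1)) = 1 := by
      rw [← mul_pow, mul_inv_cancel₀ hζ, one_pow]
    simp only [algebraMap_int_eq, eq_intCast, Int.cast_ofNat]
    linear_combination (-2 : ℂ) * e

theorem fibo_double (m : ℕ) : fibo (2 * m) = fibo m * lucas m := by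
  have h : (fibo (2 * m) - fibo m * lucas m) ^ 2 * (X ^ 2 + C 4) = 0 := by
    refine eq_of_aeval fun x => ?_
    obtain ⟨ζ, hζ, rfl⟩ := exists_zeta x
    have h1 := aeval_fibo ζ hζ (2 * m)
    have h2 := aeval_fibo ζ hζ m
    have h3 := aeval_lucas ζ hζ m
    have e : ζ * ζ⁻¹ = 1 := mul_inv_cancel₀ hζ
    have h4 : (aeval (ζ - ζ⁻¹) (fibo (2 * m)) - aeval (ζ - ζ⁻¹) (fibo m) *
        aeval (ζ - ζ⁻¹) (lucas m)) * (ζ + ζ⁻¹) = 0 := by
      rw [sub_mul, h1, h3]
      rw [mul_comm 2 m, pow_mul, pow_mul]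
      linear_combination -(ζ ^ m + (-ζ⁻¹) ^ m) * h2
    have h5 : aeval (ζ - ζ⁻¹) (X ^ 2 + C 4 : ℤ[X]) = (ζ + ζ⁻¹) ^ 2 := by
      rw [map_add, map_pow, aeval_X, aeval_C]
      simp only [algebraMap_int_eq, eq_intCast, Int.cast_ofNat]
      linear_combination (-4 : ℂ) * e
    rw [map_mul, map_pow, map_sub, map_mul, h5, ← mul_pow, h4]
    simp
  have h4 : (X ^ 2 + C 4 : ℤ[X]) ≠ 0 := (monic_X_pow_add_C 4 (by norm_num)).ne_zero
  have := pow_eq_zero_iff (n := 2) (by norm_num) |>.1 ((mul_eq_zero.1 h).resolve_right h4)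
  exact sub_eq_zero.1 this

theorem irreducible_dvd_fibo (k : ℕ) (f : ℤ[X]) (hf : f.Monic) (hirr : Irreducible f)
    (h : f ∣ fibo (2 ^ k)) : IsMonogenic f := by
  induction k with
  | zero =>
    exfalso
    apply hirr.not_isUnit
    have : fibo (2 ^ 0) = 1 := rfl
    rw [this] at h
    exact isUnit_of_dvd_one h
  | succ k ih =>
    rw [pow_succ, mul_comm, fibo_double] at h
    rcases hirr.prime.dvd_or_dvd h with h | h
    · exact ih h
    · cases k with
      | zero =>
        have : lucas (2 ^ 0) = X := rfl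
        rw [this] at h
        rw [eq_of_dvd hf hirr monic_X Polynomial.irreducible_X h]
        exact isMonogenic_X
      | succ k =>
        rw [lucas_two_pow] at h
        rw [eq_of_dvd hf hirr (V_monic k) (V_irreducible k) h]
        exact V_monogenic k

end Pool.Agent.X17.Monogenic
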